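import Pool.Agent.Y874.TP2.Defs

/-!
# Movies recording the double curves through the triple points

Crossings are named by pairs of natural numbers, coded by one natural number; the first member of the
pair is the colour of the crossing, the name of the double curve of the projected surface to which
the crossing belongs. The colour is kept by all moves. Branch points (moves of type I) are allowed
only on double curves of even colours (so that a double curve of an odd colour has no branch points).
-/

namespace Pool.Agent.R800.TP

open Pool.Agent.Y468.SR
open Pool.Agent.Y874.TP (colour TriAt)
open Pool.Agent.Y874.TP2 (CStep)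

/-- `TMovie handles Z D T`: the classical link `D` bounds disjoint connected surfaces, one for each
label, by a movie ending with the empty diagram, births of components being allowed. Triple points of
the projection (moves of type III) are of two kinds: either at least two of the three double curves
through the triple point have colours in `Z`, or the three double curves have colours outside `Z`.
`T` is the list of the triples of colours of the double curves at the triple points of the second
kind: the colour of the crossing of the top and the middle strand, of the top and the bottom strand,
and of the middle and the bottom strand. There are no other conditions on triple points. If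
`handles = false`, the surfaces are planar (discs, if the labels of `D` are different). If
`handles = true`, a component may be cut into two components of the boundary of the same piece of
surface, one of which passes only through crossings with colours in `Z`. -/
inductive TMovie (handles : Bool) (Z : ℕ → Prop) : Code → List (ℕ × ℕ × ℕ) → Prop
  | nil : TMovie handles Z [] []
  | step {D D' : Code} {T : List (ℕ × ℕ × ℕ)} (h : Classical D) (hs : CStep D D')
      (hm : TMovie handles Z D' T) : TMovie handles Z D T
  | three {D D' : Code} {T : List (ℕ × ℕ × ℕ)} (h : Classical D) (A B C E : List (Pass ⊕ ℕ))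
      (X Y W t m b : Pass × Pass) (x y z : ℕ) (hT : TriAt x y z t m b)
      (hP : List.Perm [X, Y, W] [t, m, b])
      (hD : enc D = A ++ two X.1 X.2 ++ B ++ two Y.1 Y.2 ++ C ++ two W.1 W.2 ++ E)
      (hD' : enc D' = A ++ two X.2 X.1 ++ B ++ two Y.2 Y.1 ++ C ++ two W.2 W.1 ++ E)
      (hZ : ¬Z (colour x) ∧ ¬Z (colour y) ∧ ¬Z (colour z))
      (hm : TMovie handles Z D' T) : TMovie handles Z D ((colour x, colour y, colour z) :: T)
  | inner {D D' : Code} {T : List (ℕ × ℕ × ℕ)} (h : Classical D) (A B C E : List (Pass ⊕ ℕ))
      (X Y W t m b : Pass × Pass) (x y z : ℕ) (hT : TriAt x y z t m b)
      (hP : List.Perm [X, Y, W] [t, m, b])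
      (hD : enc D = A ++ two X.1 X.2 ++ B ++ two Y.1 Y.2 ++ C ++ two W.1 W.2 ++ E)
      (hD' : enc D' = A ++ two X.2 X.1 ++ B ++ two Y.2 Y.1 ++ C ++ two W.2 W.1 ++ E)
      (hZ : Z (colour x) ∧ Z (colour y) ∨ Z (colour x) ∧ Z (colour z) ∨ Z (colour y) ∧ Z (colour z))
      (hm : TMovie handles Z D' T) : TMovie handles Z D T
  | handle {R : Code} {T : List (ℕ × ℕ × ℕ)} (x y : List Pass) (b : ℕ) (hh : handles = true)
      (h : Classical ((x ++ y, b) :: R)) (hy : ∀ p ∈ y, Z (colour p.crossing))
      (hm : TMovie handles Z ((x, b) :: (y, b) :: R) T) : TMovie handles Z ((x ++ y, b) :: R) T

end Pool.Agent.R800.TP
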