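import Pool.Agent.R800.TP.Lift
import Pool.Agent.Y761.TP2.Flow
import Pool.Agent.Y759.TP2.Inst
import Pool.Agent.Y874.TP2.Final

/-! Curves crossing one another evenly. -/

namespace Pool.Agent.R800.TP

open Pool.Agent.Y468.SR
open Pool.Agent.Y874.TP hiding S_REID S_REN S_THREE S_OUT S_CUT S_JUNC CStep CReid CM InvM InvC Inv3
open Pool.Agent.Y874.TP2
open Pool.Agent.Y874.TP2.T3

/-- The name of the curve of the preimage of the double curve with colour `k` in the upper sheet
(`o = true`) or the lower sheet (`o = false`). If the colour is even, there is only one curve. -/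
def curve (k : ℕ) (o : Bool) : ℕ × Bool := (k, o || k % 2 == 0)

/-- The pairs of curves of the preimage crossing one another at the preimages of the triple point with
the colours `t` (in the top, the middle and the bottom sheet). -/
def crs (t : ℕ × ℕ × ℕ) : List (Sym2 (ℕ × Bool)) :=
  [s(curve t.1 true, curve t.2.1 true), s(curve t.1 false, curve t.2.2 true),
    s(curve t.2.1 false, curve t.2.2 false)]

/-- The name of the curve of the preimage ending in the passage `p`. -/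
def ends (p : Pass) : ℕ × Bool := curve (colour p.crossing) p.isOver

theorem ends_eq (p : Pass) : ends p = kap p := rfl

theorem tprs_eq {T : Tri} {t : ℕ × ℕ × ℕ} (h : sig T = (t, (true, true, true))) :
    tprs T = crs t := by
  simp only [sig, Prod.mk.injEq, Prod.ext_iff] at h
  obtain ⟨⟨h1, h2, h3⟩, h4, h5, h6⟩ := h
  simp only [tprs, crs, curve, kap, lc, Tri.pa₁, Tri.pb₁, Tri.pc₁, Pass.mate, h1, h2, h3, h4, h5, h6,
    Bool.not_true]

theorem tprs_all {Ts : List Tri} {T : List (ℕ × ℕ × ℕ)}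
    (h : Ts.map sig = T.map fun t => (t, (true, true, true))) : Ts.flatMap tprs = T.flatMap crs := by
  induction Ts generalizing T with
  | nil =>
    have : T = [] := by simpa using h
    rw [this]; rfl
  | cons S Ts ih =>
    rcases T with _ | ⟨t, T⟩
    · simp at h
    · simp only [List.map_cons, List.cons.injEq] at h
      rw [List.flatMap_cons, List.flatMap_cons, ih h.2, tprs_eq h.1]

/-- the flow along the curve named `κ` -/
def fk (κ : ℕ × Bool) (p : Pass) : ℤ := if kap p = κ then sg p else 0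

theorem sg_one (p : Pass) : sg p = 1 ∨ sg p = -1 := by
  unfold sg
  split_ifs
  · exact Or.inl rfl
  · exact Or.inr rfl

theorem fk_part {P : List Pass} {m : ℕ → ℕ} (hc : CM P m) (κ : ℕ × Bool) {p : Pass} (hp : p ∈ P) :
    fk κ (part m p) = -fk κ p := by
  unfold fk
  rw [Pool.Agent.Y759.TP2.kap_part hc hp, Pool.Agent.Y759.TP2.sg_part]
  split_ifs <;> simp

theorem fk_two {p q : Pass} (κ : ℕ × Bool) (h1 : sg q = -sg p) (h2 : kap q = kap p) :
    fk κ q = -fk κ p := by
  unfold fk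
  rw [h1, h2]
  split_ifs <;> simp

theorem sum_word (κ : ℕ × Bool) (e : Bool) {p₁ p₂ q₁ q₂ : Pass} (h1 : sg p₂ = -sg p₁)
    (h2 : sg q₂ = -sg q₁) (h3 : kap p₂ = kap p₁) (h4 : kap q₂ = kap q₁) :
    ((word4 e p₁ p₂ q₁ q₂).map (fk κ)).sum = 0 := by
  have e1 := fk_two κ h1 h3
  have e2 := fk_two κ h2 h4
  cases e <;> simp only [word4, Bool.false_eq_true, if_false, if_true, List.map_cons, List.map_nil,
    List.sum_cons, List.sum_nil, e1, e2] <;> ring

theorem om_word {κ κ' : ℕ × Bool} (hκ : κ ≠ κ') (e : Bool) {p₁ p₂ q₁ q₂ : Pass}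
    (h1 : sg p₂ = -sg p₁) (h2 : sg q₂ = -sg q₁) (h3 : kap p₂ = kap p₁) (h4 : kap q₂ = kap q₁) :
    ∃ k : ℤ, om (fk κ) (fk κ') (word4 e p₁ p₂ q₁ q₂) =
      2 * ([s(kap p₁, kap q₁)].count s(κ, κ') : ℕ) + 4 * k := by
  have e1 := fk_two κ h1 h3
  have e2 := fk_two κ h2 h4
  have e3 := fk_two κ' h1 h3
  have e4 := fk_two κ' h2 h4
  have key : om (fk κ) (fk κ') (word4 e p₁ p₂ q₁ q₂) =
      2 * (fk κ q₁ * fk κ' p₁ - fk κ' q₁ * fk κ p₁) ∨
      om (fk κ) (fk κ') (word4 e p₁ p₂ q₁ q₂) =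
      -(2 * (fk κ q₁ * fk κ' p₁ - fk κ' q₁ * fk κ p₁)) := by
    cases e
    · right
      simp only [word4, Bool.false_eq_true, if_false, om, List.map_cons, List.map_nil,
        List.sum_cons, List.sum_nil, e1, e2, e3, e4]
      ring
    · left
      simp only [word4, if_true, om, List.map_cons, List.map_nil,
        List.sum_cons, List.sum_nil, e1, e2, e3, e4]
      ring
  rw [List.count_singleton]
  by_cases c1 : kap p₁ = κ
  · by_cases c2 : kap q₁ = κ'
    · have d1 : fk κ p₁ = sg p₁ := by simp [fk, c1]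
      have d2 : fk κ' q₁ = sg q₁ := by simp [fk, c2]
      have d3 : fk κ' p₁ = 0 := by simp [fk, c1, hκ]
      rw [d1, d2, d3] at key
      have : (s(kap p₁, kap q₁) == s(κ, κ')) = true := by rw [c1, c2]; simp
      rw [this, if_pos rfl]
      rcases sg_one p₁ with f1 | f1 <;> rcases sg_one q₁ with f2 | f2 <;> rw [f1, f2] at key <;>
        rcases key with key | key <;> rw [key]
      · exact ⟨-1, by push_cast; ring⟩
      · exact ⟨0, by push_cast; ring⟩
      · exact ⟨0, by push_cast; ring⟩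
      · exact ⟨-1, by push_cast; ring⟩
      · exact ⟨0, by push_cast; ring⟩
      · exact ⟨-1, by push_cast; ring⟩
      · exact ⟨-1, by push_cast; ring⟩
      · exact ⟨0, by push_cast; ring⟩
    · have d2 : fk κ' q₁ = 0 := by simp [fk, c2]
      have d3 : fk κ' p₁ = 0 := by simp [fk, c1, hκ]
      rw [d2, d3] at key
      have : (s(kap p₁, kap q₁) == s(κ, κ')) = false := by
        rw [beq_eq_false_iff_ne, c1, Ne, Sym2.eq_iff]
        rintro (⟨-, h⟩ | ⟨h, -⟩)
        · exact c2 h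
        · exact hκ h
      rw [this]
      refine ⟨0, ?_⟩
      rcases key with key | key <;> rw [key] <;> simp
  · by_cases c2 : kap p₁ = κ'
    · have d1 : fk κ p₁ = 0 := by simp [fk, c1]
      have d3 : fk κ' p₁ = sg p₁ := by simp [fk, c2]
      by_cases c3 : kap q₁ = κ
      · have d4 : fk κ q₁ = sg q₁ := by simp [fk, c3]
        rw [d1, d3, d4] at key
        have : (s(kap p₁, kap q₁) == s(κ, κ')) = true := by
          rw [c3, c2, beq_iff_eq, Sym2.eq_swap]
        rw [this, if_pos rfl]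
        rcases sg_one p₁ with f1 | f1 <;> rcases sg_one q₁ with f2 | f2 <;>
          rw [f1, f2] at key <;> rcases key with key | key <;> rw [key]
        · exact ⟨0, by push_cast; ring⟩
        · exact ⟨-1, by push_cast; ring⟩
        · exact ⟨-1, by push_cast; ring⟩
        · exact ⟨0, by push_cast; ring⟩
        · exact ⟨-1, by push_cast; ring⟩
        · exact ⟨0, by push_cast; ring⟩
        · exact ⟨0, by push_cast; ring⟩
        · exact ⟨-1, by push_cast; ring⟩
      · have d4 : fk κ q₁ = 0 := by simp [fk, c3]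
        rw [d1, d4] at key
        have : (s(kap p₁, kap q₁) == s(κ, κ')) = false := by
          rw [beq_eq_false_iff_ne, Ne, Sym2.eq_iff]
          rintro (⟨h, -⟩ | ⟨-, h⟩)
          · exact c1 h
          · exact c3 h
        rw [this]
        refine ⟨0, ?_⟩
        rcases key with key | key <;> rw [key] <;> simp
    · have d1 : fk κ p₁ = 0 := by simp [fk, c1]
      have d3 : fk κ' p₁ = 0 := by simp [fk, c2]
      rw [d1, d3] at key
      have : (s(kap p₁, kap q₁) == s(κ, κ')) = false := by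
        rw [beq_eq_false_iff_ne, Ne, Sym2.eq_iff]
        rintro (⟨h, -⟩ | ⟨h, -⟩)
        · exact c1 h
        · exact c2 h
      rw [this]
      refine ⟨0, ?_⟩
      rcases key with key | key <;> rw [key] <;> simp

/-- the circles of a triple point -/
theorem om_tri {κ κ' : ℕ × Bool} (hκ : κ ≠ κ') {T : Tri} (hc : T.Col) :
    (∀ C ∈ T.code, (C.1.map (fk κ)).sum = 0) ∧
    ∃ k : ℤ, (T.code.map fun C => om (fk κ) (fk κ') C.1).sum =
      2 * ((tprs T).count s(κ, κ') : ℕ) + 4 * k := by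
  obtain ⟨h1, h2, h3⟩ := hc
  have a1 := Pool.Agent.Y759.TP2.sg_pos T.a₁ T.a₂ T.ta T.sa
  have a2 := Pool.Agent.Y759.TP2.kap_col T.a₁ T.a₂ T.ta T.sa (!T.sa) h1
  have a3 := Pool.Agent.Y759.TP2.sg_mate_pos T.a₁ T.a₂ T.ta T.sa
  have a4 := Pool.Agent.Y759.TP2.kap_mate_col T.a₁ T.a₂ T.ta T.sa (!T.sa) h1
  have b1 := Pool.Agent.Y759.TP2.sg_pos T.b₁ T.b₂ T.tb T.sb
  have b2 := Pool.Agent.Y759.TP2.kap_col T.b₁ T.b₂ T.tb T.sb (!T.sb) h2
  have b3 := Pool.Agent.Y759.TP2.sg_mate_pos T.b₁ T.b₂ T.tb T.sb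
  have b4 := Pool.Agent.Y759.TP2.kap_mate_col T.b₁ T.b₂ T.tb T.sb (!T.sb) h2
  have c1 := Pool.Agent.Y759.TP2.sg_pos T.c₁ T.c₂ T.tc T.sc
  have c2 := Pool.Agent.Y759.TP2.kap_col T.c₁ T.c₂ T.tc T.sc (!T.sc) h3
  have c3 := Pool.Agent.Y759.TP2.sg_mate_pos T.c₁ T.c₂ T.tc T.sc
  have c4 := Pool.Agent.Y759.TP2.kap_mate_col T.c₁ T.c₂ T.tc T.sc (!T.sc) h3
  constructor
  · intro C hC
    simp only [Tri.code, List.mem_cons, List.not_mem_nil, or_false] at hC
    rcases hC with rfl | rfl | rfl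
    · exact sum_word κ _ a1 b1 a2 b2
    · exact sum_word κ _ a3 c1 a4 c2
    · exact sum_word κ _ b3 c3 b4 c4
  · obtain ⟨k1, e1⟩ := om_word hκ T.ei a1 b1 a2 b2
    obtain ⟨k2, e2⟩ := om_word hκ T.ej a3 c1 a4 c2
    obtain ⟨k3, e3⟩ := om_word hκ T.ek b3 c3 b4 c4
    refine ⟨k1 + k2 + k3, ?_⟩
    have e : tprs T = [s(kap T.pa₁, kap T.pb₁)] ++ ([s(kap T.pa₁.mate, kap T.pc₁)] ++
      [s(kap T.pb₁.mate, kap T.pc₁.mate)]) := rfl
    rw [e, List.count_append, List.count_append]
    simp only [Tri.code, List.map_cons, List.map_nil, List.sum_cons, List.sum_nil]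
    have e1' : om (fk κ) (fk κ') T.wi = 2 * ([s(kap T.pa₁, kap T.pb₁)].count s(κ, κ') : ℕ) + 4 * k1 :=
      e1
    have e2' : om (fk κ) (fk κ') T.wj =
      2 * ([s(kap T.pa₁.mate, kap T.pc₁)].count s(κ, κ') : ℕ) + 4 * k2 := e2
    have e3' : om (fk κ) (fk κ') T.wk =
      2 * ([s(kap T.pb₁.mate, kap T.pc₁.mate)].count s(κ, κ') : ℕ) + 4 * k3 := e3
    rw [e1', e2', e3']
    push_cast
    ring

theorem om_tris {κ κ' : ℕ × Bool} (hκ : κ ≠ κ') {Ts : List Tri} (hc : ∀ T ∈ Ts, T.Col) :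
    (∀ C ∈ TC Ts, (C.1.map (fk κ)).sum = 0) ∧
    ∃ k : ℤ, ((TC Ts).map fun C => om (fk κ) (fk κ') C.1).sum =
      2 * ((Ts.flatMap tprs).count s(κ, κ') : ℕ) + 4 * k := by
  induction Ts with
  | nil => exact ⟨by simp [TC], 0, by simp [TC]⟩
  | cons T Ts ih =>
    obtain ⟨i1, k, i2⟩ := ih fun T' hT' => hc T' (by simp [hT'])
    obtain ⟨j1, l, j2⟩ := om_tri hκ (hc T (by simp))
    rw [TC_cons]
    refine ⟨fun C hC => ?_, k + l, ?_⟩
    · rcases List.mem_append.1 hC with h | h
      · exact j1 C h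
      · exact i1 C h
    · rw [List.map_append, List.sum_append, i2, j2, List.flatMap_cons, List.count_append]
      push_cast
      ring

end Pool.Agent.R800.TP
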