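import Pool.Agent.R800.TP.Even

/-! Curves crossing one another evenly: the diagram. -/

namespace Pool.Agent.R800.TP

open Pool.Agent.Y468.SR
open Pool.Agent.Y874.TP hiding S_REID S_REN S_THREE S_OUT S_CUT S_JUNC CStep CReid CM InvM InvC Inv3
open Pool.Agent.Y874.TP2
open Pool.Agent.Y874.TP2.T3

theorem split_one {W : List Pass} {κ : ℕ × Bool} (h : (W.map kap).count κ ≠ 0) :
    ∃ A x B, W = A ++ x :: B ∧ kap x = κ ∧ ∀ y ∈ A, kap y ≠ κ := by
  induction W with
  | nil => simp at h
  | cons p W ih =>
    by_cases hp : kap p = κ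
    · exact ⟨[], p, W, rfl, hp, by simp⟩
    · rw [List.map_cons, List.count_cons_of_ne hp] at h
      obtain ⟨A, x, B, rfl, h1, h2⟩ := ih h
      refine ⟨p :: A, x, B, rfl, h1, fun y hy => ?_⟩
      rcases List.mem_cons.1 hy with rfl | hy
      · exact hp
      · exact h2 y hy

theorem count_zero {W : List Pass} {κ : ℕ × Bool} (h : ∀ y ∈ W, kap y ≠ κ) :
    (W.map kap).count κ = 0 := by
  rw [List.count_eq_zero]
  intro hm
  obtain ⟨y, hy, h1⟩ := List.mem_map.1 hm
  exact h y hy h1

theorem of_count_zero {W : List Pass} {κ : ℕ × Bool} (h : (W.map kap).count κ = 0) :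
    ∀ y ∈ W, kap y ≠ κ := by
  intro y hy h1
  rw [List.count_eq_zero] at h
  exact h (List.mem_map.2 ⟨y, hy, h1⟩)

theorem fk_zero {κ : ℕ × Bool} {W : List Pass} (h : ∀ y ∈ W, kap y ≠ κ) : ∀ y ∈ W, fk κ y = 0 := by
  intro y hy
  unfold fk
  rw [if_neg (h y hy)]

theorem sum_one {W : List Pass} {κ : ℕ × Bool} (h : (W.map kap).count κ = 1) :
    (W.map (fk κ)).sum = 1 ∨ (W.map (fk κ)).sum = -1 := by
  obtain ⟨A, x, B, rfl, h1, h2⟩ := split_one (W := W) (κ := κ) (by omega)
  have hB : ∀ y ∈ B, kap y ≠ κ := by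
    refine of_count_zero ?_
    rw [List.map_append, List.map_cons, List.count_append, count_zero h2, h1,
      List.count_cons_self] at h
    omega
  rw [List.map_append, List.map_cons, List.sum_append, List.sum_cons, sum_zero (fk_zero h2),
    sum_zero (fk_zero hB)]
  have : fk κ x = sg x := by simp [fk, h1]
  rw [this, zero_add, add_zero]
  exact sg_one x

/-- each name occurs twice or not at all, chords are not interleaved, the values at the ends of chords
are inverse to one another -/
structure Cf {G : Type} [Group G] (v : Pass → G) (W : List Pass) : Prop where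
  two : ∀ κ, (W.map kap).count κ = 0 ∨ (W.map kap).count κ = 2
  inv : ∀ A x M x' B, W = A ++ x :: (M ++ x' :: B) → kap x' = kap x → v x' = (v x)⁻¹
  free : ∀ A x M x' B, W = A ++ x :: (M ++ x' :: B) → kap x' = kap x →
    ∀ κ, κ ≠ kap x → (M.map kap).count κ ≠ 1

theorem Cf.prod {G : Type} [Group G] (v : Pass → G) : ∀ (n : ℕ) (W : List Pass), W.length ≤ n →
    Cf v W → (W.map v).prod = 1 := by
  intro n
  induction n with
  | zero =>
    intro W hW _
    have : W = [] := List.eq_nil_of_length_eq_zero (by omega)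
    rw [this]; rfl
  | succ n ih =>
    intro W hW h
    rcases W with _ | ⟨x, W⟩
    · rfl
    · have h2 := h.two (kap x)
      rw [List.map_cons, List.count_cons_self] at h2
      have h3 : (W.map kap).count (kap x) = 1 := by omega
      obtain ⟨M, x', B, rfl, hx', hM⟩ := split_one (W := W) (κ := kap x) (by omega)
      have hcM := count_zero hM
      have hcB : (B.map kap).count (kap x) = 0 := by
        rw [List.map_append, List.map_cons, List.count_append, hcM, hx', List.count_cons_self] at h3
        omega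
      have hB := of_count_zero hcB
      have e : x :: (M ++ x' :: B) = [] ++ x :: (M ++ x' :: B) := rfl
      have hinv := h.inv [] x M x' B e hx'
      have hfree := h.free [] x M x' B e hx'
      have hcount : ∀ κ, κ ≠ kap x → ((x :: (M ++ x' :: B)).map kap).count κ =
          (M.map kap).count κ + (B.map kap).count κ := by
        intro κ hκ
        rw [List.map_cons, List.count_cons_of_ne (Ne.symm hκ), List.map_append, List.count_append,
          List.map_cons, List.count_cons_of_ne (by rw [hx']; exact Ne.symm hκ)]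
      have hMt : ∀ κ, (M.map kap).count κ = 0 ∨ (M.map kap).count κ = 2 := by
        intro κ
        by_cases hκ : κ = kap x
        · left; rw [hκ]; exact hcM
        · have h4 := h.two κ
          rw [hcount κ hκ] at h4
          have h5 := hfree κ hκ
          omega
      have hBt : ∀ κ, (B.map kap).count κ = 0 ∨ (B.map kap).count κ = 2 := by
        intro κ
        by_cases hκ : κ = kap x
        · left; rw [hκ]; exact hcB
        · have h4 := h.two κ
          rw [hcount κ hκ] at h4
          have h5 := hMt κ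
          omega
      have cM : Cf v M := by
        refine ⟨hMt, fun A y N y' B' hM' hy => ?_, fun A y N y' B' hM' hy => ?_⟩
        · refine h.inv (x :: A) y N y' (B' ++ x' :: B) ?_ hy
          rw [hM']; simp
        · refine h.free (x :: A) y N y' (B' ++ x' :: B) ?_ hy
          rw [hM']; simp
      have cB : Cf v B := by
        refine ⟨hBt, fun A y N y' B' hM' hy => ?_, fun A y N y' B' hM' hy => ?_⟩
        · refine h.inv (x :: (M ++ x' :: A)) y N y' B' ?_ hy
          rw [hM']; simp
        · refine h.free (x :: (M ++ x' :: A)) y N y' B' ?_ hy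
          rw [hM']; simp
      have l : M.length + B.length + 2 ≤ n + 1 := by
        simp only [List.length_cons, List.length_append] at hW
        omega
      have pM := ih M (by omega) cM
      have pB := ih B (by omega) cB
      rw [List.map_cons, List.prod_cons, List.map_append, List.prod_append, List.map_cons,
        List.prod_cons, pM, pB, hinv]
      simp

section
variable {D : Code} {Ts : List Tri} {m : ℕ → ℕ}

theorem flow_D (hn : (D.map Prod.snd).Nodup) (hI : InvB D Ts) (hm : InvM (D ++ TC Ts) m)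
    {κ κ' : ℕ × Bool} (hκ : κ ≠ κ') (he : Even ((Ts.flatMap tprs).count s(κ, κ'))) :
    (∀ C ∈ D, (C.1.map (fk κ)).sum = 0) ∧
    ∃ k : ℤ, (D.map fun C => om (fk κ) (fk κ') C.1).sum = 4 * k := by
  obtain ⟨a1, k, a2⟩ := om_tris hκ (Ts := Ts) fun T hT => (hI.ok T hT).2
  obtain ⟨a3, -⟩ := om_tris (Ne.symm hκ) (Ts := Ts) fun T hT => (hI.ok T hT).2
  obtain ⟨h1, h2⟩ := Pool.Agent.Y761.TP2.flow D (TC Ts) m (fk κ) (fk κ') hn hI.wf hm.1 hm.2.2
    (fun p hp => ⟨fk_part hm.2.1 κ hp, fk_part hm.2.1 κ' hp⟩) (fun C hC => ⟨a1 C hC, a3 C hC⟩)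
  refine ⟨h1, ?_⟩
  obtain ⟨j, hj⟩ := he
  rw [List.map_append, List.sum_append, a2, hj] at h2
  refine ⟨-((j : ℤ) + k), ?_⟩
  push_cast at h2
  linarith

theorem flow_D1 (hn : (D.map Prod.snd).Nodup) (hI : InvB D Ts) (hm : InvM (D ++ TC Ts) m)
    (κ : ℕ × Bool) : ∀ C ∈ D, (C.1.map (fk κ)).sum = 0 := by
  have a : ∀ C ∈ TC Ts, (C.1.map (fk κ)).sum = 0 := by
    obtain ⟨κ', hκ'⟩ : ∃ κ' : ℕ × Bool, κ ≠ κ' := ⟨(κ.1, !κ.2), by
      intro h
      have := congrArg Prod.snd h
      simp at this⟩
    exact (om_tris hκ' (Ts := Ts) fun T hT => (hI.ok T hT).2).1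
  exact (Pool.Agent.Y761.TP2.flow D (TC Ts) m (fk κ) (fk κ) hn hI.wf hm.1 hm.2.2
    (fun p hp => ⟨fk_part hm.2.1 κ hp, fk_part hm.2.1 κ hp⟩) (fun C hC => ⟨a C hC, a C hC⟩)).1

theorem count_le {C : List Pass × ℕ} (hC : C ∈ D) (κ : ℕ × Bool) :
    (C.1.map kap).count κ ≤ ((passes D).map kap).count κ := by
  obtain ⟨D₁, D₂, rfl⟩ := List.append_of_mem hC
  simp only [passes, List.flatMap_append, List.flatMap_cons, List.map_append, List.count_append]
  omega

theorem count_split {D₁ D₂ : Code} {C : List Pass × ℕ} (κ : ℕ × Bool) :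
    ((passes (D₁ ++ C :: D₂)).map kap).count κ = ((passes D₁).map kap).count κ +
      (C.1.map kap).count κ + ((passes D₂).map kap).count κ := by
  simp only [passes, List.flatMap_append, List.flatMap_cons, List.map_append, List.count_append]
  omega

variable (hn : (D.map Prod.snd).Nodup) (hI : InvB D Ts) (hm : InvM (D ++ TC Ts) m)
  (hc : ∀ κ, ((passes D).map kap).count κ ≤ 2)
include hn hI hm hc

theorem zero_or_two {C : List Pass × ℕ} (hC : C ∈ D) (κ : ℕ × Bool) :
    (C.1.map kap).count κ = 0 ∨ (C.1.map kap).count κ = 2 := by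
  have h1 := count_le hC κ
  have h2 := hc κ
  have h3 := flow_D1 hn hI hm κ C hC
  by_cases h4 : (C.1.map kap).count κ = 1
  · rcases sum_one h4 with h5 | h5 <;> rw [h3] at h5 <;> simp at h5
  · omega

/-- no interleaved chords -/
theorem free_D {C : List Pass × ℕ} (hC : C ∈ D) {A M B : List Pass} {x x' : Pass}
    (hW : C.1 = A ++ x :: (M ++ x' :: B)) (hx : kap x' = kap x) {κ : ℕ × Bool} (hκ : κ ≠ kap x)
    (he : Even ((Ts.flatMap tprs).count s(kap x, κ))) : (M.map kap).count κ ≠ 1 := by
  intro h1
  obtain ⟨z, k, hk⟩ := flow_D hn hI hm (Ne.symm hκ) he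
  -- both ends are in `C`
  have c2 := zero_or_two hn hI hm hc hC (kap x)
  have c3 : (C.1.map kap).count (kap x) = 2 + (A.map kap).count (kap x) +
      (M.map kap).count (kap x) + (B.map kap).count (kap x) := by
    rw [hW]
    simp only [List.map_append, List.map_cons, List.count_append, List.count_cons_self, hx]
    omega
  have hA := of_count_zero (W := A) (κ := kap x) (by omega)
  have hM := of_count_zero (W := M) (κ := kap x) (by omega)
  have hB := of_count_zero (W := B) (κ := kap x) (by omega)
  obtain ⟨D₁, D₂, rfl⟩ := List.append_of_mem hC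
  have hs := hc (kap x)
  rw [count_split] at hs
  have hD₁ := of_count_zero (W := passes D₁) (κ := kap x) (by omega)
  have hD₂ := of_count_zero (W := passes D₂) (κ := kap x) (by omega)
  have hz : ∀ D' : Code, (∀ y ∈ passes D', kap y ≠ kap x) →
      (D'.map fun C => om (fk (kap x)) (fk κ) C.1).sum = 0 := by
    intro D' h
    refine List.sum_eq_zero fun a ha => ?_
    obtain ⟨C', hC', rfl⟩ := List.mem_map.1 ha
    exact om_zero (fk_zero fun y hy => h y (mem_passes.2 ⟨C', hC', hy⟩))
  have hxs : sg x' = -sg x := by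
    have h5 := flow_D1 hn hI hm (kap x) C hC
    rw [hW] at h5
    simp only [List.map_append, List.map_cons, List.sum_append, List.sum_cons,
      sum_zero (fk_zero hA), sum_zero (fk_zero hM), sum_zero (fk_zero hB)] at h5
    have e1 : fk (kap x) x = sg x := by simp [fk]
    have e2 : fk (kap x) x' = sg x' := by simp [fk, hx]
    rw [e1, e2] at h5
    linarith
  rw [List.map_append, List.sum_append, List.map_cons, List.sum_cons, hz D₁ hD₁, hz D₂ hD₂, hW,
    om_key (fk_zero hA) (fk_zero hM) (fk_zero hB) (fk_two (kap x) hxs hx)] at hk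
  have e1 : fk (kap x) x = sg x := by simp [fk]
  have e2 : fk κ x = 0 := by simp [fk, Ne.symm hκ]
  have e3 : fk κ x' = 0 := by simp [fk, hx, Ne.symm hκ]
  rw [e1, e2, e3] at hk
  rcases sum_one h1 with h5 | h5 <;> rcases sg_one x with h6 | h6 <;> rw [h5, h6] at hk <;> omega

end

end Pool.Agent.R800.TP
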