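import Pool.Agent.R800.TP.EvenB

/-! Curves crossing one another evenly: the matching. -/

namespace Pool.Agent.R800.TP

open Pool.Agent.Y468.SR
open Pool.Agent.Y874.TP hiding S_REID S_REN S_THREE S_OUT S_CUT S_JUNC CStep CReid CM InvM InvC Inv3
open Pool.Agent.Y874.TP2
open Pool.Agent.Y874.TP2.T3

theorem three_le {P : List Pass} {κ : ℕ × Bool} {x y z : Pass} (hx : x ∈ P) (hy : y ∈ P) (hz : z ∈ P)
    (h1 : kap x = κ) (h2 : kap y = κ) (h3 : kap z = κ) (hxy : x ≠ y) (hxz : x ≠ z) (hyz : y ≠ z) :
    3 ≤ (P.map kap).count κ := by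
  rw [List.count_eq_countP, List.countP_map, List.countP_eq_length_filter]
  have h : [x, y, z].Subperm (P.filter ((· == κ) ∘ kap)) := by
    refine List.subperm_of_subset ?_ fun a ha => ?_
    · simp [hxy, hxz, hyz]
    · simp only [List.mem_cons, List.not_mem_nil, or_false] at ha
      rcases ha with rfl | rfl | rfl <;> simp [*]
  exact h.length_le

open Classical in
/-- the matching of the crossings with the same colour -/
noncomputable def mt (D : Code) (c : ℕ) : ℕ :=
  if colour c % 2 = 0 then c
  else if h : ∃ p ∈ passes D, colour p.crossing = colour c ∧ p.crossing ≠ c then h.choose.crossing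
  else c

theorem kap_mate_even {p : Pass} (h : colour p.crossing % 2 = 0) : kap p.mate = kap p := by
  unfold kap lc Pass.mate
  simp [h]

theorem mate_ne (p : Pass) : p.mate ≠ p := by
  intro h
  simpa [Pass.mate] using congrArg Pass.isOver h

section
variable {D : Code} (hW : WF (passes D)) (hc : ∀ κ, ((passes D).map kap).count κ ≤ 2)
include hW hc

theorem even_case {x x' : Pass} (hx : x ∈ passes D) (hx' : x' ∈ passes D) (hne : x' ≠ x)
    (hk : kap x' = kap x) (h : colour x.crossing % 2 = 0) : x' = x.mate := by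
  by_contra hn
  have := three_le hx hx' (hW.1 x hx) rfl hk (kap_mate_even h) (Ne.symm hne) (mate_ne x).symm hn
  have := hc (kap x)
  omega

theorem odd_case {x x' : Pass} (hx : x ∈ passes D) (hx' : x' ∈ passes D) (hne : x' ≠ x)
    (hk : kap x' = kap x) (h : colour x.crossing % 2 ≠ 0) :
    x'.isOver = x.isOver ∧ x'.crossing ≠ x.crossing ∧ mt D x.crossing = x'.crossing := by
  have hkk := hk
  unfold kap lc at hkk
  simp only [Prod.mk.injEq] at hkk
  obtain ⟨h1, h2⟩ := hkk
  have h3 : (colour x.crossing % 2 == 0) = false := by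
    rw [beq_eq_false_iff_ne]; exact h
  rw [h1, h3, Bool.or_false, Bool.or_false] at h2
  have h4 : x'.crossing ≠ x.crossing := fun h4 => hne (List.inj_on_of_nodup_map hW.2 hx' hx
    (by simp [h4, h2]))
  refine ⟨h2, h4, ?_⟩
  unfold mt
  have hex : ∃ p ∈ passes D, colour p.crossing = colour x.crossing ∧ p.crossing ≠ x.crossing :=
    ⟨x', hx', h1, h4⟩
  rw [if_neg h, dif_pos hex]
  obtain ⟨k1, k2, k3⟩ := hex.choose_spec
  set q := hex.choose
  -- the passage of the same type
  have key : ∀ q₁ ∈ passes D, q₁.crossing = q.crossing → q₁.isOver = x.isOver →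
      q₁.crossing = x'.crossing := by
    intro q₁ hq₁ e1 e2
    by_contra hcr
    have hk1 : kap q₁ = kap x := by
      unfold kap lc
      rw [e1, k2, e2]
    have a1 : q₁ ≠ x := fun h => k3 (by rw [← e1, h])
    have a2 : q₁ ≠ x' := fun h => hcr (by rw [h])
    have := three_le hq₁ hx hx' hk1 rfl hk a1 a2 (Ne.symm hne)
    have := hc (kap x)
    omega
  by_cases hq : q.isOver = x.isOver
  · exact key q k1 rfl hq
  · refine key q.mate (hW.1 q k1) rfl ?_
    show (!q.isOver) = x.isOver
    cases e1 : q.isOver <;> cases e2 : x.isOver <;> simp_all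

end

section
variable {D : Code} {Ts : List Tri} {m : ℕ → ℕ} (hn : (D.map Prod.snd).Nodup) (hI : InvB D Ts)
  (hW : WF (passes D))
  (hm : InvM (D ++ TC Ts) m) (hc : ∀ κ, ((passes D).map kap).count κ ≤ 2)
include hn hI hW hm hc

theorem partner {p : Pass} (hp : p ∈ passes D) :
    ∃ q ∈ passes D, q ≠ p ∧ kap q = kap p ∧ sg q = -sg p := by
  obtain ⟨C, hC, hpC⟩ := mem_passes.1 hp
  have h1 : (C.1.map kap).count (kap p) ≠ 0 := by
    intro h
    exact of_count_zero h p hpC rfl
  obtain ⟨A, x, B, hAB, hx, hA⟩ := split_one h1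
  have h2 := zero_or_two hn hI hm hc hC (kap p)
  have h3 : (B.map kap).count (kap p) = 1 := by
    rw [hAB, List.map_append, List.map_cons, List.count_append, count_zero hA, hx,
      List.count_cons_self] at h2
    omega
  obtain ⟨M, x', B', rfl, hx', hM⟩ := split_one (W := B) (κ := kap p) (by omega)
  have hB' : (B'.map kap).count (kap p) = 0 := by
    rw [List.map_append, List.map_cons, List.count_append, count_zero hM, hx',
      List.count_cons_self] at h3
    omega
  have hs : sg x' = -sg x := by
    have h5 := flow_D1 hn hI hm (kap p) C hC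
    rw [hAB] at h5
    simp only [List.map_append, List.map_cons, List.sum_append, List.sum_cons,
      sum_zero (fk_zero hA), sum_zero (fk_zero hM), sum_zero (fk_zero (of_count_zero hB'))] at h5
    have e1 : fk (kap p) x = sg x := by simp [fk, hx]
    have e2 : fk (kap p) x' = sg x' := by simp [fk, hx']
    rw [e1, e2] at h5
    linarith
  have hmem : ∀ y ∈ C.1, y ∈ passes D := fun y hy => mem_passes.2 ⟨C, hC, hy⟩
  have hxm : x ∈ passes D := hmem x (by rw [hAB]; simp)
  have hxm' : x' ∈ passes D := hmem x' (by rw [hAB]; simp)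
  have hxx : x ≠ x' := by
    intro h
    rw [h] at hs
    rcases sg_one x' with h6 | h6 <;> rw [h6] at hs <;> simp at hs
  have hcase : p = x ∨ p = x' := by
    by_contra hno
    rw [not_or] at hno
    have := three_le hp hxm hxm' rfl hx hx' hno.1 hno.2 hxx
    have := hc (kap p)
    omega
  rcases hcase with rfl | rfl
  · exact ⟨x', hxm', hxx.symm, hx', hs⟩
  · exact ⟨x, hxm, hxx, hx, by rw [hs, neg_neg]⟩

theorem pos_of_sg {p q : Pass} (h1 : q.isOver = p.isOver) (h2 : sg q = -sg p) :
    q.isPos = !p.isPos := by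
  unfold sg at h2
  rw [h1] at h2
  cases h3 : p.isOver <;> cases h4 : p.isPos <;> cases h5 : q.isPos <;> rw [h3, h4, h5] at h2 <;>
    simp at h2 <;> rfl

theorem mt_matching : Matching (passes D) (mt D) := by
  intro p hp
  obtain ⟨q, hq, h1, h2, h3⟩ := partner hn hI hW hm hc hp
  by_cases h : colour p.crossing % 2 = 0
  · have e : mt D p.crossing = p.crossing := by
      unfold mt; rw [if_pos h]
    exact ⟨p, hp, e.symm, e, fun h => absurd rfl h⟩
  · obtain ⟨e1, e2, e3⟩ := odd_case hW hc hp hq h1 h2 h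
    have h' : colour q.crossing % 2 ≠ 0 := by
      have := congrArg Prod.fst h2
      have h4 : colour q.crossing = colour p.crossing := this
      rw [h4]; exact h
    obtain ⟨-, -, e4⟩ := odd_case hW hc hq hp (Ne.symm h1) h2.symm h'
    exact ⟨q, hq, e3.symm, e4, fun _ => pos_of_sg hn hI hW hm hc e1 h3⟩

theorem mt_val {G : Type} [Group G] {o u : ℕ → G} (hv : Valid (passes D) (mt D) o u) {x x' : Pass}
    (hx : x ∈ passes D) (hx' : x' ∈ passes D) (hne : x' ≠ x) (hk : kap x' = kap x) :
    val o u x' = (val o u x)⁻¹ := by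
  obtain ⟨v1, v2⟩ := hv x hx
  by_cases h : colour x.crossing % 2 = 0
  · have e := even_case hW hc hx hx' hne hk h
    have e' : mt D x.crossing = x.crossing := by
      unfold mt; rw [if_pos h]
    have h1 := v1 e'
    rw [e]
    unfold val Pass.mate
    cases h2 : x.isOver <;> simp [h1]
  · obtain ⟨e1, e2, e3⟩ := odd_case hW hc hx hx' hne hk h
    have h1 := v2 (by rw [e3]; exact e2)
    rw [e3] at h1
    unfold val
    rw [e1]
    split_ifs
    · exact h1.1
    · exact h1.2

theorem null_mt (he : ∀ p ∈ passes D, ∀ q ∈ passes D, kap p ≠ kap q →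
    Even ((Ts.flatMap tprs).count s(kap p, kap q))) : Null D (mt D) := by
  intro G _ o u hv C hC
  have hmem : ∀ y ∈ C.1, y ∈ passes D := fun y hy => mem_passes.2 ⟨C, hC, hy⟩
  have hnd : C.1.Nodup := by
    obtain ⟨D₁, D₂, rfl⟩ := List.append_of_mem hC
    have := WF.nodup hW
    simp only [passes, List.flatMap_append, List.flatMap_cons] at this
    exact (List.nodup_append.1 (List.nodup_append.1 this).2.1).1
  refine Cf.prod (val o u) C.1.length C.1 le_rfl ⟨zero_or_two hn hI hm hc hC, ?_, ?_⟩
  · intro A x M x' B hW' hk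
    refine mt_val hn hI hW hm hc hv (hmem x (by rw [hW']; simp)) (hmem x' (by rw [hW']; simp)) ?_ hk
    rintro rfl
    rw [hW', List.nodup_append, List.nodup_cons] at hnd
    exact hnd.2.1.1 (by simp)
  · intro A x M x' B hW' hk κ hκ h1
    obtain ⟨A₁, y, B₁, rfl, hy, -⟩ := split_one (W := M) (κ := κ) (by omega)
    have hxm : x ∈ passes D := hmem x (by rw [hW']; simp)
    have hym : y ∈ passes D := hmem y (by rw [hW']; simp)
    subst hy
    exact free_D hn hI hm hc hC hW' hk hκ (he x hxm y hym (Ne.symm hκ)) h1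

end

/-- discs whose curves meeting the link cross one another evenly can be replaced by ribbon discs -/
theorem even_ribbon {hd : Bool} {Z : ℕ → Prop} {D : Code} {T : List (ℕ × ℕ × ℕ)}
    (h : TMovie hd Z D T) (hZ : ∀ p ∈ passes D, ¬Z (colour p.crossing))
    (hn : (D.map Prod.snd).Nodup) (hc : ∀ κ, ((passes D).map ends).count κ ≤ 2)
    (he : ∀ p ∈ passes D, ∀ q ∈ passes D, ends p ≠ ends q →
      Even ((T.flatMap crs).count s(ends p, ends q))) : Movie true false D [] := by
  obtain ⟨Ts, hI, hs⟩ := tmovie_inv' RD.reid RN.ren TH.three h hZ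
  obtain ⟨m, hm⟩ := hI.inv
  have hD := tmovie_classical h
  rw [← tprs_all hs] at he
  exact movie_mono (ribbon_of_inv _ D le_rfl hD hn (inv_of_null (mt_matching hn hI hD.1 hm hc)
    (null_mt hn hI hD.1 hm hc he)))

end Pool.Agent.R800.TP
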